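import Pool.Agent.W37.SG.Stm

namespace Pool.Agent.W237.SG.X1
open Pool.Agent.W37.SG
open scoped BigOperators

section alg
variable {K : Type*} [CommRing K]

def B (θ η : ℕ → K) : ℕ → ℕ → K
  | 0, s => η s
  | r+1, s => B θ η r s * θ (s+r+1) - θ s * B θ η r (s+1)

def T (θ η : ℕ → K) (s r l : ℕ) : K :=
  η (s+l) * ∏ m ∈ Finset.range (r+1), (if m = l then 1 else θ (s+m))

theorem T_last (θ η : ℕ → K) (s r l : ℕ) (hl : l ≤ r) :
    T θ η s r l * θ (s+r+1) = T θ η s (r+1) l := by
  unfold T
  rw [Finset.prod_range_succ _ (r+1), if_neg (by omega)]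
  ring_nf

theorem T_first (θ η : ℕ → K) (s r l : ℕ) :
    θ s * T θ η (s+1) r l = T θ η s (r+1) (l+1) := by
  unfold T
  rw [Finset.prod_range_succ' _ (r+1)]
  have h1 : ∀ m, (if m + 1 = l + 1 then (1:K) else θ (s+(m+1))) = if m = l then 1 else θ (s+1+m) := by
    intro m
    by_cases h : m = l
    · simp [h]
    · rw [if_neg (by omega), if_neg h]; congr 1; ring
  simp only [h1]
  rw [if_neg (by omega)]
  have : s + (l+1) = s + 1 + l := by ring
  rw [this]
  simp only [Nat.add_zero]
  ring

theorem B_eq (θ η : ℕ → K) (r : ℕ) : ∀ s, B θ η r s =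
    ∑ l ∈ Finset.range (r+1), (-1)^l * (r.choose l : K) * T θ η s r l := by
  induction r with
  | zero => intro s; simp [B, T]
  | succ r ih =>
    intro s
    rw [B, ih s, ih (s+1), Finset.sum_mul, Finset.mul_sum]
    have h1 : ∑ l ∈ Finset.range (r+1), (-1)^l * (r.choose l : K) * T θ η s r l * θ (s+r+1)
        = ∑ l ∈ Finset.range (r+2), (-1)^l * (r.choose l : K) * T θ η s (r+1) l := by
      rw [Finset.sum_range_succ _ (r+1)]
      rw [Nat.choose_succ_self]
      simp only [Nat.cast_zero, mul_zero, zero_mul, add_zero]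
      refine Finset.sum_congr rfl fun l hl => ?_
      rw [← T_last θ η s r l (by simpa [Nat.lt_succ_iff] using hl)]
      ring
    have h2 : ∑ l ∈ Finset.range (r+1), θ s * ((-1)^l * (r.choose l : K) * T θ η (s+1) r l)
        = ∑ l ∈ Finset.range (r+1), (-1)^l * (r.choose l : K) * T θ η s (r+1) (l+1) := by
      refine Finset.sum_congr rfl fun l hl => ?_
      rw [← T_first θ η s r l]
      ring
    rw [h1, h2, Finset.sum_range_succ' _ (r+1), Finset.sum_range_succ' _ (r+1)]
    simp only [Nat.choose_zero_right, pow_zero]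
    rw [add_sub_right_comm, ← Finset.sum_sub_distrib]
    congr 1
    refine Finset.sum_congr rfl fun l hl => ?_
    rw [Nat.choose_succ_succ]
    push_cast
    ring

end alg

theorem choose_pm (p : ℕ) [Fact p.Prime] (l : ℕ) (hl : l < p) :
    ((-1)^l * ((p-1).choose l : ZMod p)) = 1 := by
  have hp : p.Prime := Fact.out
  induction l with
  | zero => simp
  | succ l ih =>
    have h1 := ih (by omega)
    have h2 : ((p.choose (l+1) : ℕ) : ZMod p) = 0 := by
      rw [ZMod.natCast_eq_zero_iff]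
      exact hp.dvd_choose_self (by omega) hl
    have h3 : p.choose (l+1) = (p-1).choose l + (p-1).choose (l+1) := by
      have : p = (p-1)+1 := by have := hp.pos; omega
      conv_lhs => rw [this]
      exact Nat.choose_succ_succ _ _
    rw [h3] at h2
    push_cast at h2
    have h4 : (((p-1).choose (l+1) : ℕ) : ZMod p) = - ((p-1).choose l : ZMod p) := by
      linear_combination h2
    rw [h4, pow_succ]
    linear_combination h1

theorem wil (p : ℕ) [Fact p.Prime] (n m0 : ℕ) (hm0 : m0 < p) (hn : (n : ZMod p) = m0) (u : ZMod p)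
    (hu : u ≠ 0) :
    ∏ m ∈ Finset.range p, (if m = m0 then (1 : ZMod p) else u * ((n : ZMod p) - m)) = -1 := by
  have hp : p.Prime := Fact.out
  have h0 : ∀ a < p, ∀ b < p, (a : ZMod p) = (b : ZMod p) → a = b := by
    intro a ha b hb h
    have := (ZMod.natCast_eq_natCast_iff' a b p).1 h
    rwa [Nat.mod_eq_of_lt ha, Nat.mod_eq_of_lt hb] at this
  have h1 : ∏ m ∈ Finset.range p, (if m = m0 then (1 : ZMod p) else u * ((n : ZMod p) - m))
      = ∏ a : ZMod p, (if a = 0 then (1 : ZMod p) else a) := by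
    refine Finset.prod_nbij (fun m => u * ((n : ZMod p) - m)) (fun _ _ => Finset.mem_univ _) ?_ ?_ ?_
    · intro a ha b hb h
      simp only at h
      have h2 := mul_left_cancel₀ hu h
      have h3 : (a : ZMod p) = b := by linear_combination -h2
      exact h0 a (by simpa using ha) b (by simpa using hb) h3
    · intro a _
      refine ⟨((n : ZMod p) - u⁻¹ * a).val, ?_, ?_⟩
      · simpa using ZMod.val_lt _
      · simp only [ZMod.natCast_val, ZMod.cast_id', id_eq]
        field_simp
        ring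
    · intro m hm
      have hm' : m < p := by simpa using hm
      by_cases h : m = m0
      · subst h
        simp [hn]
      · have h5 : u * ((n : ZMod p) - m) ≠ 0 := by
          intro h6
          rcases mul_eq_zero.1 h6 with h7 | h7
          · exact hu h7
          · rw [hn] at h7
            have := h0 m0 hm0 m hm' (sub_eq_zero.1 h7)
            exact h this.symm
        rw [if_neg h, if_neg h5]
  rw [h1]
  have h2 : ∏ a : ZMod p, (if a = 0 then (1 : ZMod p) else a) = ∏ x : (ZMod p)ˣ, (x : ZMod p) := by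
    symm
    refine Finset.prod_bij_ne_one (fun x _ _ => (x : ZMod p)) (fun _ _ _ => Finset.mem_univ _) ?_ ?_ ?_
    · intro a _ _ b _ _ h
      exact Units.ext h
    · intro b _ hb
      by_cases h : b = 0
      · simp [h] at hb
      · rw [if_neg h] at hb
        exact ⟨Units.mk0 b h, Finset.mem_univ _, by simpa using hb, rfl⟩
    · intro a _ _
      rw [if_neg a.ne_zero]
  rw [h2]
  have h3 := FiniteField.prod_univ_units_id_eq_neg_one (K := ZMod p)
  have h4 := congrArg (fun x : (ZMod p)ˣ => (x : ZMod p)) h3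
  simpa using h4

theorem cf_val (p : ℕ) [Fact p.Prime] (v k : ℕ) (hk : ¬ p ∣ k) (h : Pm p) :
    cf p (p^v * k) h = (k : ZMod p) * ((-1)^v * tau p v h) := by
  have hp : p.Prime := Fact.out
  have hk0 : k ≠ 0 := by rintro rfl; exact hk (dvd_zero _)
  have h1 : padicValNat p (p^v * k) = v := by
    rw [padicValNat.mul (pow_ne_zero _ hp.ne_zero) hk0, padicValNat.prime_pow,
      padicValNat.eq_zero_of_not_dvd hk, add_zero]
  unfold cf ed
  rw [h1, Nat.mul_div_cancel_left _ (pow_pos hp.pos _)]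
  simp

theorem cf_mul (hD4 : S_D4) (p : ℕ) [Fact p.Prime] (i : ℕ) (g h : Pm p) (hg : IsTri p g)
    (hh : IsTri p h) : cf p i (g * h) = cf p i g + cf p i h := by
  unfold cf
  rw [(hD4 p g h hg hh).2.2.1]
  ring

theorem cf_inv (hD4 : S_D4) (p : ℕ) [Fact p.Prime] (i : ℕ) (g : Pm p) (hg : IsTri p g) :
    cf p i g⁻¹ = - cf p i g := by
  unfold cf
  rw [(hD4 p g g hg hg).2.2.2]
  ring

theorem tri_one (p : ℕ) : IsTri p (1 : Pm p) := by
  intro i x y _
  simp

theorem cf_one (p : ℕ) [NeZero p] (i : ℕ) : cf p i (1 : Pm p) = 0 := by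
  unfold cf tau
  simp

theorem cf_pow (hD4 : S_D4) (p : ℕ) [Fact p.Prime] (i : ℕ) (g : Pm p) (hg : IsTri p g) (a : ℕ) :
    IsTri p (g^a) ∧ cf p i (g^a) = a * cf p i g := by
  induction a with
  | zero => exact ⟨by simpa using tri_one p, by simp [cf_one]⟩
  | succ a ih =>
    rw [pow_succ]
    refine ⟨(hD4 p _ _ ih.1 hg).1, ?_⟩
    rw [cf_mul hD4 p i _ _ ih.1 hg, ih.2]
    push_cast
    ring

theorem lead_pow (hDC : S_DC) (p : ℕ) [Fact p.Prime] (d : ℕ) (hd : 1 ≤ d) (g : Pm p)
    (a : ℕ → ZMod p) (h1 : Dep p d g) (h2 : Lead p d g a) (m : ℕ) :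
    Dep p d (g^m) ∧ Lead p d (g^m) (fun i => m * a i) := by
  induction m with
  | zero =>
    refine ⟨?_, ?_⟩
    · intro n f hf
      have : (fun x => f ((g^0 : Pm p) x) - f x) = 0 := by funext x; simp
      rw [this]
      exact Submodule.zero_mem _
    · intro i hi
      have : (fun x => mon p i ((g^0 : Pm p) x) - mon p i x - ((0 : ℕ) : ZMod p) * a i * mon p (i - d) x)
          = 0 := by funext x; simp
      rw [this]
      exact Submodule.zero_mem _
  | succ m ih =>
    rw [pow_succ]
    have := (hDC p d d (g^m) g (fun i => m * a i) a hd hd ih.1 h1 ih.2 h2).2.1 rfl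
    refine ⟨this.1, ?_⟩
    have h3 : (fun i => ((m+1 : ℕ) : ZMod p) * a i) = fun i => (m : ZMod p) * a i + a i := by
      funext i
      push_cast
      ring
    rw [h3]
    exact this.2

def W {p : ℕ} (h Y : Pm p) : ℕ → Pm p
  | 0 => h
  | r+1 => cm (W h Y r) Y

def A {K : Type*} [CommRing K] (θ η : ℕ → K) (d : ℕ) : ℕ → ℕ → K
  | 0 => η
  | r+1 => fun i => A θ η d r i * θ (i - (r+1)*d) - θ i * A θ η d r (i - d)

theorem A_eq {K : Type*} [CommRing K] (θ η : ℕ → K) (d i r : ℕ) : ∀ s, A θ η d r (i - s*d) =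
    B (fun m => θ (i - m*d)) (fun m => η (i - m*d)) r s := by
  induction r with
  | zero => intro s; simp [A, B]
  | succ r ih =>
    intro s
    rw [A, B, ← ih s, ← ih (s+1)]
    have h1 : i - s*d - (r+1)*d = i - (s+r+1)*d := by
      rw [Nat.sub_sub]; congr 1; ring
    have h2 : i - s*d - d = i - (s+1)*d := by
      rw [Nat.sub_sub]; congr 1; ring
    simp only [h1, h2]

theorem W_lead (hDC : S_DC) (p : ℕ) [Fact p.Prime] (d : ℕ) (hd : 1 ≤ d) (h Y : Pm p)
    (θ η : ℕ → ZMod p) (h1 : Dep p d h) (h2 : Lead p d h η) (h3 : Dep p d Y) (h4 : Lead p d Y θ)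
    (r : ℕ) : Dep p ((r+1)*d) (W h Y r) ∧ Lead p ((r+1)*d) (W h Y r) (A θ η d r) := by
  induction r with
  | zero => simpa [W, A] using ⟨h1, h2⟩
  | succ r ih =>
    have := (hDC p ((r+1)*d) d (W h Y r) Y (A θ η d r) θ (Nat.mul_pos (by omega) hd) hd ih.1 h3
      ih.2 h4).1
    have h5 : (r+1+1)*d = (r+1)*d + d := by ring
    rw [h5]
    exact this

theorem W_mem {p : ℕ} (Q : Subgroup (Pm p)) (h Y : Pm p) (hh : h ∈ Q) (hY : Y ∈ Q) (r : ℕ) :
    W h Y r ∈ Q := by
  induction r with
  | zero => exact hh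
  | succ r ih =>
    show cm _ _ ∈ Q
    unfold cm
    exact Q.mul_mem (Q.mul_mem (Q.mul_mem (Q.inv_mem ih) (Q.inv_mem hY)) ih) hY

theorem step (hDC : S_DC) (p : ℕ) [Fact p.Prime] (v : ℕ) (C : ZMod p) (hC : C ≠ 0)
    (y : Pm p) (hy : tau p v y ≠ 0) (i : ℕ) (hi : p * p^v ≤ i) :
    ∏ m ∈ Finset.range p, (if m = (i / p^v) % p then (1 : ZMod p) else
      C * cf p (p^v * ((i - m * p^v) / p^v)) y) = -1 := by
  have hp : p.Prime := Fact.out
  have hpv : 0 < p^v := pow_pos hp.pos _
  set n := i / p^v with hn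
  have hnp : p ≤ n := (Nat.le_div_iff_mul_le hpv).2 hi
  rw [← wil p n (n % p) (Nat.mod_lt _ hp.pos) (by simp) (C * ((-1)^v * tau p v y))
    (mul_ne_zero hC (mul_ne_zero (pow_ne_zero _ (by simp)) hy))]
  refine Finset.prod_congr rfl fun m hm => ?_
  have hm' : m < p := by simpa using hm
  by_cases h : m = n % p
  · rw [if_pos h, if_pos h]
  · rw [if_neg h, if_neg h]
    have h1 : (i - m * p^v) / p^v = n - m := by
      rw [mul_comm, Nat.sub_mul_div]
    rw [h1, cf_val]
    · rw [Nat.cast_sub (by omega)]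
      ring
    · intro h2
      apply h
      have h3 : (n - m) % p = 0 := Nat.mod_eq_zero_of_dvd h2
      have h4 := Nat.sub_mod_eq_zero_of_mod_eq (m := n) (n := m) (k := p)
      have h5 : n ≡ m [MOD p] := by
        have := (Nat.modEq_iff_dvd' (show m ≤ n by omega)).2 h2
        exact this.symm
      have h6 : n % p = m % p := h5
      rw [h6, Nat.mod_eq_of_lt hm']

theorem idx0 (p : ℕ) [Fact p.Prime] (v i : ℕ) :
    p^v * ((i - ((i / p^v) % p) * p^v) / p^v) = p^(v+1) * (i / p^(v+1)) := by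
  have hp : p.Prime := Fact.out
  have hpv : 0 < p^v := pow_pos hp.pos _
  rw [mul_comm (i / p^v % p), Nat.sub_mul_div]
  have h1 : i / p^v - i / p^v % p = p * (i / p^v / p) := by
    have := Nat.div_add_mod (i / p^v) p
    omega
  rw [h1, Nat.div_div_eq_div_mul, ← pow_succ]
  ring

theorem main : Pool.Agent.W37.SG.S_X1 := by
  intro hD2 hD4 hDC p _ hp2 Q hQ hτ v
  have hp : p.Prime := Fact.out
  induction v with
  | zero =>
    refine ⟨1, one_ne_zero, fun h hh => ⟨h, hh, ?_⟩⟩
    have := hD2 p h (hQ h hh)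
    simpa using this
  | succ v ih =>
    obtain ⟨C, hC, H⟩ := ih
    have hpv : 1 ≤ p^v := Nat.one_le_pow _ _ hp.pos
    refine ⟨-C, neg_ne_zero.2 hC, ?_⟩
    obtain ⟨y, hyQ, hy⟩ := hτ v
    obtain ⟨Y, hYQ, hYd, hYl⟩ := H y hyQ
    -- (b)
    have hb : Dep p (p^(v+1)) (Y^p) ∧ Lead p (p^(v+1)) (Y^p)
        (fun i => -C * cf p (p^(v+1) * (i / p^(v+1))) y) := by
      have h1 := (hDC p (p^v) (p^v) Y Y _ _ hpv hpv hYd hYd hYl hYl).2.2.2
      have h2 : p * p^v = p^(v+1) := by ring
      rw [h2] at h1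
      refine ⟨h1.1, ?_⟩
      intro i hi
      have h3 := h1.2 i hi
      have h4 : ∏ l ∈ Finset.range p, (C * cf p (p^v * ((i - l * p^v) / p^v)) y) =
          -C * cf p (p^(v+1) * (i / p^(v+1))) y := by
        have h5 := step hDC p v C hC y hy i (by rw [h2]; exact hi)
        have hm : (i / p^v) % p ∈ Finset.range p := Finset.mem_range.2 (Nat.mod_lt _ hp.pos)
        rw [← Finset.mul_prod_erase _ _ hm] at h5 ⊢
        rw [if_pos rfl, one_mul] at h5
        rw [idx0]
        have h6 : ∏ l ∈ (Finset.range p).erase ((i / p^v) % p), (C * cf p (p^v * ((i - l * p^v) / p^v)) y)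
            = -1 := by
          rw [← h5]
          refine Finset.prod_congr rfl fun l hl => ?_
          rw [if_neg (Finset.ne_of_mem_erase hl)]
        rw [h6]
        ring
      simp only [h4] at h3
      exact h3
    -- (a)
    have ha : ∀ h ∈ Q, tau p v h = 0 → ∃ g ∈ Q, Dep p (p^(v+1)) g ∧ Lead p (p^(v+1)) g
        (fun i => -C * cf p (p^(v+1) * (i / p^(v+1))) h) := by
      intro h hh hτh
      obtain ⟨h', h'Q, h'd, h'l⟩ := H h hh
      have hW := W_lead hDC p (p^v) hpv h' Y _ _ h'd h'l hYd hYl (p-1)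
      have h2 : (p - 1 + 1) * p^v = p^(v+1) := by
        rw [Nat.sub_add_cancel hp.pos]; ring
      rw [h2] at hW
      refine ⟨W h' Y (p-1), W_mem Q h' Y h'Q hYQ _, hW.1, ?_⟩
      intro i hi
      have h3 := hW.2 i hi
      have h4 := A_eq (fun i => C * cf p (p^v * (i / p^v)) y) (fun i => C * cf p (p^v * (i / p^v)) h)
        (p^v) i (p-1) 0
      rw [zero_mul, Nat.sub_zero, B_eq] at h4
      rw [Nat.sub_add_cancel hp.pos] at h4
      have hm : (i / p^v) % p ∈ Finset.range p := Finset.mem_range.2 (Nat.mod_lt _ hp.pos)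
      rw [Finset.sum_eq_single_of_mem _ hm] at h4
      · rw [choose_pm p _ (Nat.mod_lt _ hp.pos), one_mul] at h4
        unfold T at h4
        simp only [zero_add] at h4
        rw [Nat.sub_add_cancel hp.pos, step hDC p v C hC y hy i (by rw [mul_comm, ← pow_succ]; exact hi),
          idx0] at h4
        rw [h4] at h3
        have h5 : C * cf p (p^(v+1) * (i / p^(v+1))) h * -1 =
          -C * cf p (p^(v+1) * (i / p^(v+1))) h := by ring
        rw [h5] at h3
        exact h3
      · intro l hl hne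
        have hl' : l < p := by simpa using hl
        have h6 : C * cf p (p^v * ((i - l * p^v) / p^v)) h = 0 := by
          have h1 : (i - l * p^v) / p^v = i / p^v - l := by
            rw [mul_comm, Nat.sub_mul_div]
          have hnp : p ≤ i / p^v := (Nat.le_div_iff_mul_le (by omega)).2 (by
            rw [mul_comm, ← pow_succ]; exact hi)
          rw [h1, cf_val, hτh]
          · ring
          · intro h2
            apply hne
            have h5 : i / p^v ≡ l [MOD p] := by
              have := (Nat.modEq_iff_dvd' (show l ≤ i / p^v by omega)).2 h2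
              exact this.symm
            have h6 : i / p^v % p = l % p := h5
            rw [h6, Nat.mod_eq_of_lt hl']
        unfold T
        simp only [zero_add]
        rw [h6]
        ring
    -- (c)
    intro h hh
    set t := tau p v y with ht
    set a : ℕ := (tau p v h / t).val with ha'
    have hat : (a : ZMod p) * t = tau p v h := by
      rw [ha']
      simp only [ZMod.natCast_val, ZMod.cast_id', id_eq]
      field_simp
    have hty := hQ y hyQ
    have hth := hQ h hh
    set h0 := h * (y^a)⁻¹ with hh0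
    have hh0Q : h0 ∈ Q := Q.mul_mem hh (Q.inv_mem (Q.pow_mem hyQ _))
    have hya := fun i => cf_pow hD4 p i y hty a
    have hcf : ∀ i, cf p i h0 = cf p i h - a * cf p i y := by
      intro i
      rw [hh0, cf_mul hD4 p i _ _ hth (hD4 p _ _ (hya i).1 (hya i).1).2.1, cf_inv hD4 p i _ (hya i).1,
        (hya i).2]
      ring
    have hτ0 : tau p v h0 = 0 := by
      have h1 := hcf (p^v * 1)
      have h11 : ¬ p ∣ 1 := by
        intro h
        exact hp.one_lt.ne' (Nat.dvd_one.1 h)
      rw [cf_val p v 1 h11, cf_val p v 1 h11, cf_val p v 1 h11, ← hat] at h1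
      have h12 : (-1 : ZMod p)^v ≠ 0 := pow_ne_zero _ (by simp)
      have h13 : (-1 : ZMod p)^v * tau p v h0 = 0 := by
        push_cast at h1
        linear_combination h1
      exact (mul_eq_zero.1 h13).resolve_left h12
    obtain ⟨g, hgQ, hgd, hgl⟩ := ha h0 hh0Q hτ0
    have hpw := lead_pow hDC p (p^(v+1)) (Nat.one_le_pow _ _ hp.pos) (Y^p) _ hb.1 hb.2 a
    have hfin := (hDC p _ _ g ((Y^p)^a) _ _ (Nat.one_le_pow _ _ hp.pos) (Nat.one_le_pow _ _ hp.pos)
      hgd hpw.1 hgl hpw.2).2.1 rfl
    refine ⟨g * (Y^p)^a, Q.mul_mem hgQ (Q.pow_mem (Q.pow_mem hYQ _) _), hfin.1, ?_⟩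
    have h7 : (fun i => -C * cf p (p^(v+1) * (i / p^(v+1))) h) = fun i =>
        -C * cf p (p^(v+1) * (i / p^(v+1))) h0 + a * (-C * cf p (p^(v+1) * (i / p^(v+1))) y) := by
      funext i
      rw [hcf]
      ring
    rw [h7]
    exact hfin.2

end Pool.Agent.W237.SG.X1
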