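import Pool.Agent.W237.SG.X1

namespace Pool.Agent.W237.SG.X2
open Pool.Agent.W37.SG
open scoped BigOperators commutatorElement

theorem U_mono {p m n : ℕ} (h : m ≤ n) : U p m ≤ U p n := by
  unfold U
  apply Submodule.span_mono
  rintro f ⟨i, hi, rfl⟩
  exact ⟨i, by omega, rfl⟩

theorem mon_mem {p i n : ℕ} (h : i < n) : mon p i ∈ U p n :=
  Submodule.subset_span ⟨i, h, rfl⟩

theorem U_succ_mem (p n : ℕ) (f : Fn p) (hf : f ∈ U p (n+1)) :
    ∃ a : ZMod p, (fun x => f x - a * mon p n x) ∈ U p n := by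
  unfold U at hf
  induction hf using Submodule.span_induction with
  | mem f hf =>
    obtain ⟨i, hi, rfl⟩ := hf
    rcases Nat.lt_succ_iff_lt_or_eq.1 hi with h | h
    · refine ⟨0, ?_⟩
      have : (fun x => mon p i x - 0 * mon p n x) = mon p i := by funext x; ring
      rw [this]
      exact mon_mem h
    · subst h
      refine ⟨1, ?_⟩
      have : (fun x => mon p i x - 1 * mon p i x) = 0 := by funext x; simp
      rw [this]
      exact Submodule.zero_mem _
  | zero =>
    refine ⟨0, ?_⟩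
    have : (fun x => (0 : Fn p) x - 0 * mon p n x) = 0 := by funext x; simp
    rw [this]
    exact Submodule.zero_mem _
  | add f g _ _ hf hg =>
    obtain ⟨a, ha⟩ := hf
    obtain ⟨b, hb⟩ := hg
    refine ⟨a + b, ?_⟩
    have : (fun x => (f + g) x - (a + b) * mon p n x) =
      (fun x => f x - a * mon p n x) + (fun x => g x - b * mon p n x) := by
      funext x; simp; ring
    rw [this]
    exact Submodule.add_mem _ ha hb
  | smul c f _ hf =>
    obtain ⟨a, ha⟩ := hf
    refine ⟨c * a, ?_⟩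
    have : (fun x => (c • f) x - (c * a) * mon p n x) = c • (fun x => f x - a * mon p n x) := by
      funext x; simp; ring
    rw [this]
    exact Submodule.smul_mem _ _ ha

theorem exists_lead (p d : ℕ) (g : Pm p) (h : Dep p d g) : ∃ a, Lead p d g a := by
  have : ∀ i, ∃ a : ZMod p, d ≤ i →
      (fun x => mon p i (g x) - mon p i x - a * mon p (i - d) x) ∈ U p (i - d) := by
    intro i
    by_cases hi : d ≤ i
    · have h1 := h (i+1) (mon p i) (mon_mem (Nat.lt_succ_self i))
      have h2 : i + 1 - d = (i - d) + 1 := by omega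
      rw [h2] at h1
      obtain ⟨a, ha⟩ := U_succ_mem p _ _ h1
      exact ⟨a, fun _ => ha⟩
    · exact ⟨0, fun h => absurd h hi⟩
  choose a ha using this
  exact ⟨a, ha⟩

theorem uniq (hD1 : S_D1) (p : ℕ) [Fact p.Prime] (F : Fn p) (j : ℕ) (a b : ZMod p)
    (ha : (fun x => F x - a * mon p j x) ∈ U p j) (hb : (fun x => F x - b * mon p j x) ∈ U p j) :
    a = b := by
  by_contra hne
  apply hD1 p j
  have h1 := Submodule.sub_mem _ hb ha
  have h2 : (fun x => F x - b * mon p j x) - (fun x => F x - a * mon p j x) =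
      (a - b) • mon p j := by
    funext x
    simp
    ring
  rw [h2] at h1
  exact (Submodule.smul_mem_iff _ (sub_ne_zero.2 hne)).1 h1

theorem dep_anti {p d e : ℕ} (h : d ≤ e) (g : Pm p) (hg : Dep p e g) : Dep p d g :=
  fun n f hf => U_mono (by omega) (hg n f hf)

theorem lead_zero {p d : ℕ} (g : Pm p) (hg : Dep p (d+1) g) : Lead p d g (fun _ => 0) := by
  intro i hi
  have h1 := hg (i+1) (mon p i) (mon_mem (Nat.lt_succ_self i))
  have h2 : i + 1 - (d + 1) = i - d := by omega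
  rw [h2] at h1
  have h3 : (fun x => mon p i (g x) - mon p i x - 0 * mon p (i - d) x) =
    (fun x => mon p i (g x) - mon p i x) := by funext x; ring
  rw [h3]
  exact h1

theorem dep_one (p d : ℕ) : Dep p d (1 : Pm p) := by
  intro n f hf
  have : (fun x => f ((1 : Pm p) x) - f x) = 0 := by funext x; simp
  rw [this]
  exact Submodule.zero_mem _

/-- elements of `P` of depth at least `d + 1` -/
def FF (hDC : S_DC) (p : ℕ) [Fact p.Prime] (P : Subgroup (Pm p)) (d : ℕ) : Subgroup (Pm p) where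
  carrier := {x | x ∈ P ∧ Dep p (d+1) x}
  one_mem' := ⟨P.one_mem, dep_one p _⟩
  mul_mem' := by
    rintro x y ⟨hx, hx'⟩ ⟨hy, hy'⟩
    obtain ⟨a, ha⟩ := exists_lead p _ x hx'
    obtain ⟨b, hb⟩ := exists_lead p _ y hy'
    exact ⟨P.mul_mem hx hy, ((hDC p (d+1) (d+1) x y a b (by omega) (by omega) hx' hy' ha hb).2.1 rfl).1⟩
  inv_mem' := by
    rintro x ⟨hx, hx'⟩
    obtain ⟨a, ha⟩ := exists_lead p _ x hx'
    exact ⟨P.inv_mem hx, ((hDC p (d+1) (d+1) x x a a (by omega) (by omega) hx' hx' ha ha).2.2.1).1⟩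

theorem mem_FF (hDC : S_DC) (p : ℕ) [Fact p.Prime] (P : Subgroup (Pm p)) (d : ℕ) (x : Pm p) :
    x ∈ FF hDC p P d ↔ x ∈ P ∧ Dep p (d+1) x := Iff.rfl

theorem FF_anti (hDC : S_DC) (p : ℕ) [Fact p.Prime] (P : Subgroup (Pm p)) (d : ℕ) :
    FF hDC p P (d+1) ≤ FF hDC p P d := fun x hx => ⟨hx.1, dep_anti (by omega) x hx.2⟩

theorem card_le_relIndex {G ι : Type*} [Group G] (H K : Subgroup G) [Finite K] (f : ι → G)
    (hf : ∀ i, f i ∈ K) (hinj : ∀ i j, (f i)⁻¹ * f j ∈ H → i = j) :
    Nat.card ι ≤ H.relIndex K := by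
  unfold Subgroup.relIndex Subgroup.index
  refine Nat.card_le_card_of_injective (fun i => (QuotientGroup.mk (⟨f i, hf i⟩ : K) : K ⧸ H.subgroupOf K)) ?_
  intro i j hij
  apply hinj
  have := QuotientGroup.eq.1 hij
  exact this

theorem comm_le (hDC : S_DC) (p : ℕ) [Fact p.Prime] (P : Subgroup (Pm p)) (hP : ∀ x ∈ P, Dep p 1 x)
    (d : ℕ) : ⁅FF hDC p P d, P⁆ ≤ FF hDC p P (d+1) := by
  rw [Subgroup.commutator_le]
  intro x hx y hy
  have hx' := (FF hDC p P d).inv_mem hx
  have hy' := P.inv_mem hy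
  obtain ⟨a, ha⟩ := exists_lead p _ x⁻¹ hx'.2
  obtain ⟨b, hb⟩ := exists_lead p _ y⁻¹ (hP _ hy')
  have h1 := (hDC p (d+1) 1 x⁻¹ y⁻¹ a b (by omega) (by omega) hx'.2 (hP _ hy') ha hb).1.1
  have h2 : cm x⁻¹ y⁻¹ = ⁅x, y⁆ := by
    unfold cm
    rw [commutatorElement_def]
    group
  rw [h2] at h1
  refine ⟨?_, h1⟩
  rw [commutatorElement_def]
  exact P.mul_mem (P.mul_mem (P.mul_mem hx.1 hy) (P.inv_mem hx.1)) (P.inv_mem hy)

/-- a jump has index at least `p` -/
theorem jump (hDC : S_DC) (p : ℕ) [Fact p.Prime] (P : Subgroup (Pm p)) [Finite P] (d : ℕ)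
    (hne : FF hDC p P d ≠ FF hDC p P (d+1)) :
    p ≤ (FF hDC p P (d+1)).relIndex (FF hDC p P d) := by
  have hp : p.Prime := Fact.out
  obtain ⟨x, hx, hx'⟩ : ∃ x ∈ FF hDC p P d, x ∉ FF hDC p P (d+1) := by
    by_contra h
    push Not at h
    exact hne (le_antisymm h (FF_anti hDC p P d))
  have hfin : Finite (FF hDC p P d) :=
    Finite.of_injective (fun z : FF hDC p P d => (⟨z.1, z.2.1⟩ : P)) (by
      intro a b h
      ext1
      exact congrArg (fun z : P => z.1) h)
  have hxp : x ^ p ∈ FF hDC p P (d+1) := by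
    obtain ⟨a, ha⟩ := exists_lead p _ x hx.2
    have h1 := (hDC p (d+1) (d+1) x x a a (by omega) (by omega) hx.2 hx.2 ha ha).2.2.2.1
    exact ⟨P.pow_mem hx.1 _, dep_anti (by have := hp.two_le; nlinarith) _ h1⟩
  have key := card_le_relIndex (FF hDC p P (d+1)) (FF hDC p P d) (fun i : Fin p => x ^ (i : ℕ))
    (fun i => Subgroup.pow_mem _ hx _) ?_
  · simpa using key
  · have aux : ∀ i j : ℕ, i < j → j < p → x ^ (j - i) ∈ FF hDC p P (d+1) → False := by
      intro i j hij hj h
      have hc : Nat.Coprime (j - i) p := by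
        rw [Nat.coprime_comm, hp.coprime_iff_not_dvd]
        exact Nat.not_dvd_of_pos_of_lt (by omega) (by omega)
      apply hx'
      have h3 : ((j - i : ℕ) : ℤ) * Nat.gcdA (j-i) p + (p : ℤ) * Nat.gcdB (j-i) p = 1 := by
        rw [← Nat.gcd_eq_gcd_ab, hc.gcd_eq_one]; rfl
      have h4 : x = (x ^ (j - i)) ^ (Nat.gcdA (j-i) p) * (x ^ p) ^ (Nat.gcdB (j-i) p) := by
        rw [← zpow_natCast, ← zpow_natCast, ← zpow_mul, ← zpow_mul, ← zpow_add, h3, zpow_one]
      rw [h4]
      exact Subgroup.mul_mem _ (Subgroup.zpow_mem _ h _) (Subgroup.zpow_mem _ hxp _)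
    intro i j hij
    rcases lt_trichotomy i j with h | h | h
    · exfalso
      apply aux i j h j.2
      have : x ^ ((j : ℕ) - (i : ℕ)) = (x ^ (i : ℕ))⁻¹ * x ^ (j : ℕ) := by
        rw [eq_inv_mul_iff_mul_eq, ← pow_add]
        congr 1
        omega
      rw [this]
      exact hij
    · exact h
    · exfalso
      apply aux j i h i.2
      have : x ^ ((i : ℕ) - (j : ℕ)) = ((x ^ (i : ℕ))⁻¹ * x ^ (j : ℕ))⁻¹ := by
        rw [mul_inv_rev, inv_inv, eq_inv_mul_iff_mul_eq, ← pow_add]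
        congr 1
        omega
      rw [this]
      exact Subgroup.inv_mem _ hij

/-- two independent coefficients: index at least `p^2` -/
theorem jump2 (hD1 : S_D1) (hDC : S_DC) (p : ℕ) [Fact p.Prime] (P : Subgroup (Pm p)) [Finite P] (d : ℕ)
    (x y : Pm p) (hx : x ∈ FF hDC p P d) (hy : y ∈ FF hDC p P d) (a b : ℕ → ZMod p)
    (ha : Lead p (d+1) x a) (hb : Lead p (d+1) y b) (i₁ i₂ : ℕ) (hi₁ : d + 1 ≤ i₁) (hi₂ : d + 1 ≤ i₂)
    (hdet : a i₁ * b i₂ - b i₁ * a i₂ ≠ 0) :
    p ^ 2 ≤ (FF hDC p P (d+1)).relIndex (FF hDC p P d) := by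
  have hp : p.Prime := Fact.out
  have hfin : Finite (FF hDC p P d) :=
    Finite.of_injective (fun z : FF hDC p P d => (⟨z.1, z.2.1⟩ : P)) (by
      intro a b h
      ext1
      exact congrArg (fun z : P => z.1) h)
  have key := card_le_relIndex (FF hDC p P (d+1)) (FF hDC p P d)
    (fun i : Fin p × Fin p => x ^ (i.1 : ℕ) * y ^ (i.2 : ℕ))
    (fun i => Subgroup.mul_mem _ (Subgroup.pow_mem _ hx _) (Subgroup.pow_mem _ hy _)) ?_
  · simp at key
    rw [pow_two]
    exact key
  · rintro ⟨r, s⟩ ⟨r', s'⟩ h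
    simp only at h
    have L1 := fun m : ℕ => X1.lead_pow hDC p (d+1) (by omega) x a hx.2 ha m
    have L2 := fun m : ℕ => X1.lead_pow hDC p (d+1) (by omega) y b hy.2 hb m
    have L3 := fun m n : ℕ => (hDC p (d+1) (d+1) (x^m) (y^n) _ _ (by omega) (by omega) (L1 m).1 (L2 n).1
      (L1 m).2 (L2 n).2).2.1 rfl
    have L4 := fun m n : ℕ => (hDC p (d+1) (d+1) (x^m*y^n) (x^m*y^n) _ _ (by omega) (by omega) (L3 m n).1
      (L3 m n).1 (L3 m n).2 (L3 m n).2).2.2.1
    have L5 := (hDC p (d+1) (d+1) _ _ _ _ (by omega) (by omega) (L4 r s).1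
      (L3 r' s').1 (L4 r s).2 (L3 r' s').2).2.1 rfl
    have L6 := lead_zero _ h.2
    have e1 := uniq hD1 p _ _ _ _ (L5.2 i₁ hi₁) (L6 i₁ hi₁)
    have e2 := uniq hD1 p _ _ _ _ (L5.2 i₂ hi₂) (L6 i₂ hi₂)
    have f1 : ((r' : ℕ) : ZMod p) - (r : ℕ) = 0 := by
      have : (((r' : ℕ) : ZMod p) - (r : ℕ)) * (a i₁ * b i₂ - b i₁ * a i₂) = 0 := by
        linear_combination (b i₂) * e1 - (b i₁) * e2
      exact (mul_eq_zero.1 this).resolve_right hdet
    have f2 : ((s' : ℕ) : ZMod p) - (s : ℕ) = 0 := by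
      have : (((s' : ℕ) : ZMod p) - (s : ℕ)) * (a i₁ * b i₂ - b i₁ * a i₂) = 0 := by
        linear_combination (a i₁) * e2 - (a i₂) * e1
      exact (mul_eq_zero.1 this).resolve_right hdet
    have g : ∀ a b : Fin p, ((b : ℕ) : ZMod p) - (a : ℕ) = 0 → a = b := by
      intro a b h
      have h1 := (ZMod.natCast_eq_natCast_iff' b a p).1 (sub_eq_zero.1 h)
      rw [Nat.mod_eq_of_lt b.2, Nat.mod_eq_of_lt a.2] at h1
      exact Fin.ext h1.symm
    rw [g _ _ f1, g _ _ f2]

theorem cf_pp (p : ℕ) [Fact p.Prime] (v : ℕ) (h : Pm p) :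
    cf p (p^v) h = (-1)^v * tau p v h := by
  have hp : p.Prime := Fact.out
  have := X1.cf_val p v 1 (fun h => hp.one_lt.ne' (Nat.dvd_one.1 h)) h
  rw [mul_one] at this
  rw [this]
  simp

theorem main : Pool.Agent.W37.SG.S_X2 := by
  intro hD1 hD2 hD3 hD4 hDC hTR hX1 p _ s Q Qk H v w hv hw g hg h hh
  have hp : p.Prime := Fact.out
  by_contra hne
  set k := max v w + 1 with hk
  obtain ⟨T, T1, T2, T3, T4, T5, T6⟩ := hTR p k
  set P := Qk k with hP
  have hPm : ∀ x ∈ P, ∃ z ∈ Q, x = T z := by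
    intro x hx
    obtain ⟨z, hz, hzx⟩ := (H.trunc k x).1 hx
    exact ⟨z, hz, T3 z x (H.tri z hz) hzx⟩
  have hTP : ∀ z ∈ Q, T z ∈ P := fun z hz => (H.trunc k _).2 ⟨z, hz, (T1 z (H.tri z hz)).1⟩
  have hP1 : ∀ x ∈ P, Dep p 1 x := by
    intro x hx
    obtain ⟨z, hz, rfl⟩ := hPm x hx
    exact (hD2 p _ (T1 z (H.tri z hz)).2.1).1
  obtain ⟨c, hc, hcard0, hcard⟩ := H.cc k
  have hfinP : Finite P := Nat.finite_of_card_ne_zero hcard0
  have hF0 : FF hDC p P 0 = P := by
    ext x
    exact ⟨fun h => h.1, fun h => ⟨h, by simpa using hP1 x h⟩⟩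
  have hFbot : FF hDC p P (p^k - 1) = ⊥ := by
    rw [eq_bot_iff]
    rintro x ⟨hx, hx'⟩
    rw [Nat.sub_add_cancel (Nat.one_le_pow _ _ hp.pos)] at hx'
    obtain ⟨z, hz, rfl⟩ := hPm x hx
    have hl := (T1 z (H.tri z hz)).2.2
    rw [Subgroup.mem_bot]
    ext y i
    by_cases hi : i < k
    · have h1 : (fun y : ℕ → ZMod p => y i) ∈ U p (p^k) := by
        rw [hD3]
        intro x y hxy
        exact hxy i hi
      have h2 := hx' _ _ h1
      rw [Nat.sub_self] at h2
      have h3 : U p 0 = ⊥ := by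
        unfold U
        rw [Submodule.span_eq_bot]
        rintro f ⟨i, hi, _⟩
        omega
      rw [h3, Submodule.mem_bot] at h2
      have h4 := congrFun h2 y
      simp only [Pi.zero_apply] at h4
      simpa using sub_eq_zero.1 h4
    · simpa using hl y i (by omega)
  -- the special depths
  have hsp : ∀ j ≤ s, p ^ 2 ≤ (FF hDC p P (p^j - 1 + 1)).relIndex (FF hDC p P (p^j - 1)) := by
    intro j hj
    have hpj : 1 ≤ p^j := Nat.one_le_pow _ _ hp.pos
    obtain ⟨C, hC, hX⟩ := hX1 hD2 hD4 hDC p H.odd Q H.tri H.tau_ne j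
    obtain ⟨g', hg'Q, hg'd, hg'l⟩ := hX g hg
    obtain ⟨h', hh'Q, hh'd, hh'l⟩ := hX h hh
    have e0 : p^j - 1 + 1 = p^j := Nat.sub_add_cancel hpj
    have hTg : T g' ∈ FF hDC p P (p^j - 1) := by
      refine ⟨hTP g' hg'Q, ?_⟩
      rw [e0]
      exact T6 g' _ (H.tri g' hg'Q) hg'd
    have hTh : T h' ∈ FF hDC p P (p^j - 1) := by
      refine ⟨hTP h' hh'Q, ?_⟩
      rw [e0]
      exact T6 h' _ (H.tri h' hh'Q) hh'd
    obtain ⟨a, ha⟩ := exists_lead p _ _ hTg.2
    obtain ⟨b, hb⟩ := exists_lead p _ _ hTh.2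
    have hcoef : ∀ u, s ≤ u → u < k → ∀ z : Pm p, ∀ z' ∈ Q, ∀ a : ℕ → ZMod p,
        Lead p (p^j - 1 + 1) (T z') a → Lead p (p^j) z' (fun i => C * cf p (p^j * (i / p^j)) z) →
        a (p^u) = C * ((-1)^u * tau p u z) := by
      intro u hu huk z z' hz' a ha hz
      have hle : p^j ≤ p^u := Nat.pow_le_pow_right hp.pos (by omega)
      rw [e0] at ha
      have h1 := ha (p^u) hle
      have h2 := hz (p^u) hle
      simp only at h2
      have h3 : p^j * (p^u / p^j) = p^u := Nat.mul_div_cancel' (pow_dvd_pow _ (by omega))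
      rw [h3, cf_pp] at h2
      have h4 : ∀ x, mon p (p^u) (T z' x) = mon p (p^u) (z' x) := by
        intro x
        exact T5 z' (H.tri z' hz') _ (mon_mem (Nat.pow_lt_pow_right hp.one_lt huk)) x
      simp only [h4] at h1
      exact uniq hD1 p _ _ _ _ h1 h2
    refine jump2 hD1 hDC p P (p^j - 1) (T g') (T h') hTg hTh a b ha hb (p^v) (p^w) ?_ ?_ ?_
    · rw [e0]; exact Nat.pow_le_pow_right hp.pos (by omega)
    · rw [e0]; exact Nat.pow_le_pow_right hp.pos (by omega)
    · rw [hcoef v hv (by omega) g g' hg'Q a ha hg'l, hcoef w hw (by omega) h h' hh'Q b hb hh'l,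
        hcoef v hv (by omega) h h' hh'Q b hb hh'l, hcoef w hw (by omega) g g' hg'Q a ha hg'l]
      have h1 : C * ((-1)^v * tau p v g) * (C * ((-1)^w * tau p w h)) -
        C * ((-1)^v * tau p v h) * (C * ((-1)^w * tau p w g)) =
        C^2 * ((-1)^v * (-1)^w) * (tau p v g * tau p w h - tau p v h * tau p w g) := by ring
      rw [h1]
      refine mul_ne_zero (mul_ne_zero (pow_ne_zero _ hC) (mul_ne_zero (pow_ne_zero _ (by simp))
        (pow_ne_zero _ (by simp)))) (sub_ne_zero.2 hne)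
  -- main induction
  have hind : ∀ d : ℕ, ∃ m, P.lowerCentralSeries m ≤ FF hDC p P d ∧
      p ^ (m + ((Finset.range (s+1)).filter (fun j => p^j ≤ d)).card) ≤ (FF hDC p P d).relIndex P := by
    intro d
    induction d with
    | zero =>
      refine ⟨0, by rw [hF0]; exact le_rfl, ?_⟩
      have : (Finset.range (s+1)).filter (fun j => p^j ≤ 0) = ∅ := by
        rw [Finset.filter_eq_empty_iff]
        intro j _ h
        have := Nat.one_le_pow j p hp.pos
        omega
      rw [this, hF0]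
      simp
    | succ d ih =>
      obtain ⟨m, hm1, hm2⟩ := ih
      have hmul := Subgroup.relIndex_mul_relIndex (FF hDC p P (d+1)) (FF hDC p P d) P
        (FF_anti hDC p P d) (fun x hx => hx.1)
      have hlcs : P.lowerCentralSeries (m+1) ≤ FF hDC p P (d+1) := by
        rw [Subgroup.lowerCentralSeries_succ]
        exact le_trans (Subgroup.commutator_mono hm1 le_rfl) (comm_le hDC p P hP1 d)
      by_cases hj : ∃ j ≤ s, p^j = d+1
      · obtain ⟨j, hjs, hjd⟩ := hj
        have h1 := hsp j hjs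
        have h2 : p^j - 1 = d := by omega
        rw [h2] at h1
        refine ⟨m+1, hlcs, ?_⟩
        have h3 : (Finset.range (s+1)).filter (fun i => p^i ≤ d+1) =
            insert j ((Finset.range (s+1)).filter (fun i => p^i ≤ d)) := by
          ext i
          simp only [Finset.mem_filter, Finset.mem_range, Finset.mem_insert]
          constructor
          · rintro ⟨h4, h5⟩
            rcases Nat.lt_or_eq_of_le h5 with h6 | h6
            · exact Or.inr ⟨h4, by omega⟩
            · left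
              rw [← hjd] at h6
              exact Nat.pow_right_injective hp.two_le h6
          · rintro (h4 | ⟨h4, h5⟩)
            · rw [h4]; exact ⟨by omega, by omega⟩
            · exact ⟨h4, by omega⟩
        have h4 : j ∉ (Finset.range (s+1)).filter (fun i => p^i ≤ d) := by
          simp only [Finset.mem_filter, not_and]
          intro _; omega
        rw [h3, Finset.card_insert_of_notMem h4, ← hmul]
        have h5 : m + 1 + (((Finset.range (s+1)).filter (fun i => p^i ≤ d)).card + 1) =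
          2 + (m + ((Finset.range (s+1)).filter (fun i => p^i ≤ d)).card) := by ring
        rw [h5, pow_add]
        exact Nat.mul_le_mul h1 hm2
      · have h3 : (Finset.range (s+1)).filter (fun i => p^i ≤ d+1) =
            (Finset.range (s+1)).filter (fun i => p^i ≤ d) := by
          ext i
          simp only [Finset.mem_filter, Finset.mem_range]
          constructor
          · rintro ⟨h4, h5⟩
            rcases Nat.lt_or_eq_of_le h5 with h6 | h6
            · exact ⟨h4, by omega⟩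
            · exact absurd ⟨i, by omega, h6⟩ hj
          · rintro ⟨h4, h5⟩
            exact ⟨h4, by omega⟩
        rw [h3, ← hmul]
        by_cases hjmp : FF hDC p P d = FF hDC p P (d+1)
        · refine ⟨m, by rw [← hjmp]; exact hm1, ?_⟩
          rw [← hjmp, Subgroup.relIndex_self, one_mul]
          exact hm2
        · refine ⟨m+1, hlcs, ?_⟩
          have h1 := jump hDC p P d hjmp
          have h5 : m + 1 + ((Finset.range (s+1)).filter (fun i => p^i ≤ d)).card =
            1 + (m + ((Finset.range (s+1)).filter (fun i => p^i ≤ d)).card) := by ring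
          rw [h5, pow_add, pow_one]
          exact Nat.mul_le_mul h1 hm2
  obtain ⟨m, hm1, hm2⟩ := hind (p^k - 1)
  rw [hFbot] at hm1 hm2
  have hcm : c ≤ m := hc.2 (by
    show P.lowerCentralSeries m = ⊥
    exact le_bot_iff.1 hm1)
  have hfull : (Finset.range (s+1)).filter (fun j => p^j ≤ p^k - 1) = Finset.range (s+1) := by
    rw [Finset.filter_eq_self]
    intro j hj
    have h1 : p^j < p^k := Nat.pow_lt_pow_right hp.one_lt (by
      have := Finset.mem_range.1 hj
      omega)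
    omega
  rw [hfull, Finset.card_range, Subgroup.relIndex_bot_left] at hm2
  have h1 : p^(m + (s+1)) ≤ p^(c+s) := le_trans hm2 hcard
  have h2 := (Nat.pow_le_pow_iff_right hp.one_lt).1 h1
  omega

end Pool.Agent.W237.SG.X2
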